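import Pool.Agent.helper70.KU.Alg
import Pool.Agent.helper53.KU.ABS
import Pool.Agent.helper53.KU.MV12

/-!
# CR: the Fourier criterion
-/

namespace C048

open Finset MeasureTheory intervalIntegral

namespace CRaux

lemma continuous_E (n : ℕ) (τ : ℝ) : Continuous (fun θ => E n τ θ) := by
  have h : ∀ i : ℕ, Continuous (fun θ => fE τ θ i) := by
    intro i
    unfold fE
    refine Continuous.div_const (Continuous.log (by fun_prop) fun θ => ?_) 2
    have : (0 : ℝ) ≤ Real.sin (i * θ / 2) ^ 2 / Real.sinh (i * τ / 2) ^ 2 := by positivity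
    linarith
  unfold E D
  fun_prop

lemma integral_cos_int (k j : ℕ) :
    ∫ θ in (0:ℝ)..Real.pi, Real.cos (((k : ℝ) - j) * θ) = if k = j then Real.pi else 0 := by
  split_ifs with h
  · subst h
    simp
  · have hc : ((k : ℝ) - j) ≠ 0 := by
      rw [sub_ne_zero]
      exact_mod_cast h
    rw [intervalIntegral.integral_comp_mul_left (fun x => Real.cos x) hc, integral_cos]
    have : Real.sin (((k : ℝ) - j) * Real.pi) = 0 := by
      have := Real.sin_int_mul_pi ((k : ℤ) - (j : ℤ))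
      push_cast at this
      exact this
    rw [this]
    simp

lemma integral_sum_cos (p : ℕ → ℝ) (N j : ℕ) :
    ∫ θ in (0:ℝ)..Real.pi, ∑ k ∈ range N, p k * Real.cos (((k : ℝ) - j) * θ)
      = Real.pi * (if j < N then p j else 0) := by
  rw [intervalIntegral.integral_finsetSum]
  · simp only [intervalIntegral.integral_const_mul, integral_cos_int]
    simp only [mul_ite, mul_zero]
    rw [sum_ite_eq']
    simp only [mem_range]
    split_ifs <;> ring
  · intro k _
    exact (by fun_prop : Continuous fun θ : ℝ => p k * Real.cos (((k : ℝ) - j) * θ)).intervalIntegrable _ _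

end CRaux

open CRaux

/-- CR: the criterion -/
theorem cr (n : ℕ) (hn : 1 ≤ n) (m : ℕ) {τ θ0 : ℝ} (hτ : 0 < τ) (h0 : 0 ≤ θ0)
    (h1 : θ0 ≤ Real.pi) (hμ : mu n τ = ((m + 1 : ℕ) : ℝ))
    (h : ∫ θ in (0:ℝ)..Real.pi, θ * Real.exp (-(E n τ θ))
      < τ * (θ0 - V n τ * θ0 ^ 3 / 6 - ∫ θ in θ0..Real.pi, Real.exp (-(E n τ θ)))) :
    a n m < a n (m + 1) := by
  have hpi := Real.pi_pos
  obtain ⟨r, hr⟩ : ∃ r, r = Real.exp (-τ) := ⟨_, rfl⟩
  have hr0 : 0 < r := hr ▸ Real.exp_pos _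
  obtain ⟨p, hp⟩ : ∃ p : ℕ → ℝ, p = fun k => (a n k : ℝ) * r ^ k := ⟨_, rfl⟩
  have hpk : ∀ k, p k = (a n k : ℝ) * r ^ k := fun k => by rw [hp]
  have hp0 : ∀ k, 0 ≤ p k := fun k => by rw [hpk]; positivity
  obtain ⟨N, hN⟩ : ∃ N, N = 10 * n ^ 2 + 1 := ⟨_, rfl⟩
  obtain ⟨P, hP⟩ : ∃ P, P = Pr n r := ⟨_, rfl⟩
  have hPs : P = ∑ k ∈ range N, p k := by
    rw [hP, hN, Pr]
    exact sum_congr rfl fun k _ => (hpk k).symm
  have hPpos : 0 < P := by
    rw [hPs]
    refine sum_pos' (fun k _ => hp0 k) ⟨0, by rw [mem_range, hN]; omega, ?_⟩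
    rw [hpk, a_zero]
    norm_num
  -- the two functions
  obtain ⟨C, hC⟩ : ∃ C : ℝ → ℝ, C = fun θ => ∑ k ∈ range N,
    p k * Real.cos (((k : ℝ) - (m + 1 : ℕ)) * θ) := ⟨_, rfl⟩
  obtain ⟨S, hS⟩ : ∃ S : ℝ → ℝ, S = fun θ => ∑ k ∈ range N,
    p k * Real.sin (((k : ℝ) - (m + 1 : ℕ)) * θ) := ⟨_, rfl⟩
  have hCc : Continuous C := by rw [hC]; fun_prop
  have hSc : Continuous S := by rw [hS]; fun_prop
  have hEc := continuous_E n τ
  -- modulus
  have hmod : ∀ θ, C θ ^ 2 + S θ ^ 2 = (P * Real.exp (-(E n τ θ))) ^ 2 := by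
    intro θ
    have habs := abs_formula n hn hτ θ
    rw [← hr, ← hP] at habs
    have hz : Pz n (Complex.exp (-(τ : ℂ) + θ * Complex.I))
        * Complex.exp (-(((m + 1 : ℕ) : ℝ) * θ : ℝ) * Complex.I)
        = (C θ : ℂ) + (S θ : ℂ) * Complex.I := by
      rw [Pz, ← hN, sum_mul, hC, hS]
      push_cast
      rw [sum_mul, ← sum_add_distrib]
      refine sum_congr rfl fun k _ => ?_
      have e2 : Complex.exp (-(τ : ℂ) + (θ : ℂ) * Complex.I) ^ k
          * Complex.exp (-(((m : ℂ) + 1) * (θ : ℂ)) * Complex.I)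
          = Complex.exp (-(τ : ℂ)) ^ k * (Complex.cos (((k : ℂ) - ((m : ℂ) + 1)) * (θ : ℂ))
            + Complex.sin (((k : ℂ) - ((m : ℂ) + 1)) * (θ : ℂ)) * Complex.I) := by
        rw [← Complex.exp_mul_I, ← Complex.exp_nat_mul, ← Complex.exp_nat_mul, ← Complex.exp_add,
          ← Complex.exp_add]
        congr 1
        ring
      rw [hpk, hr]
      push_cast
      rw [mul_assoc, e2]
      ring
    have h2 := congrArg (fun z : ℂ => ‖z‖ ^ 2) hz
    rw [norm_mul, habs] at h2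
    have h3 : ‖Complex.exp (-(((m + 1 : ℕ) : ℝ) * θ : ℝ) * Complex.I)‖ = 1 := by
      rw [← Complex.ofReal_neg, Complex.norm_exp_ofReal_mul_I]
    rw [h3, mul_one, ← Complex.normSq_eq_norm_sq, Complex.normSq_add_mul_I] at h2
    exact h2.symm
  have hCabs : ∀ θ, -(P * Real.exp (-(E n τ θ))) ≤ C θ := by
    intro θ
    have h2 := hmod θ
    have h3 : C θ ^ 2 ≤ (P * Real.exp (-(E n τ θ))) ^ 2 := by
      nlinarith [sq_nonneg (S θ)]
    exact (abs_le.1 (abs_le_of_sq_le_sq h3 (by positivity))).1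
  have hmix : ∀ θ, 0 ≤ θ → -(θ * (P * Real.exp (-(E n τ θ))))
      ≤ C θ * (1 - Real.cos θ) + S θ * Real.sin θ := by
    intro θ hθ
    have h2 := hmod θ
    have h3 : (C θ * (1 - Real.cos θ) + S θ * Real.sin θ) ^ 2
        ≤ (θ * (P * Real.exp (-(E n τ θ)))) ^ 2 := by
      have h4 : (C θ * (1 - Real.cos θ) + S θ * Real.sin θ) ^ 2
          ≤ (C θ ^ 2 + S θ ^ 2) * ((1 - Real.cos θ) ^ 2 + Real.sin θ ^ 2) := by
        nlinarith [sq_nonneg (C θ * Real.sin θ - S θ * (1 - Real.cos θ))]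
      have h5 : (1 - Real.cos θ) ^ 2 + Real.sin θ ^ 2 ≤ θ ^ 2 := by
        have := Real.one_sub_sq_div_two_le_cos (x := θ)
        nlinarith [Real.sin_sq_add_cos_sq θ]
      calc _ ≤ _ := h4
        _ ≤ (C θ ^ 2 + S θ ^ 2) * θ ^ 2 := mul_le_mul_of_nonneg_left h5 (by positivity)
        _ = _ := by rw [h2]; ring
    exact (abs_le.1 (abs_le_of_sq_le_sq h3 (by positivity))).1
  -- second order lower bound
  have hClow : ∀ θ, P * (1 - V n τ * θ ^ 2 / 2) ≤ C θ := by
    intro θ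
    have hv := var_eq n hn hτ
    rw [← hr, ← hP, ← hN, hμ] at hv
    have h2 : P * (1 - V n τ * θ ^ 2 / 2)
        = ∑ k ∈ range N, p k * (1 - (((k : ℝ) - (m + 1 : ℕ)) * θ) ^ 2 / 2) := by
      have h3 : ∑ k ∈ range N, p k * (1 - (((k : ℝ) - (m + 1 : ℕ)) * θ) ^ 2 / 2)
          = ∑ k ∈ range N, p k - θ ^ 2 / 2 *
            ∑ k ∈ range N, (a n k : ℝ) * r ^ k * ((k : ℝ) - (m + 1 : ℕ)) ^ 2 := by
        rw [mul_sum, ← sum_sub_distrib]
        refine sum_congr rfl fun k _ => ?_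
        rw [hpk]
        ring
      rw [h3, hv, ← hPs]
      ring
    rw [h2, hC]
    refine sum_le_sum fun k _ => mul_le_mul_of_nonneg_left ?_ (hp0 k)
    exact Real.one_sub_sq_div_two_le_cos
  -- the integral identities
  have hI1 : ∫ θ in (0:ℝ)..Real.pi, C θ = Real.pi * p (m + 1) := by
    rw [hC, integral_sum_cos]
    split_ifs with h2
    · rfl
    · rw [hpk, a_eq_zero n (m + 1) (by omega)]
      simp
  have hI2 : ∫ θ in (0:ℝ)..Real.pi, (C θ * Real.cos θ - S θ * Real.sin θ) = Real.pi * p m := by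
    have h2 : ∀ θ, C θ * Real.cos θ - S θ * Real.sin θ
        = ∑ k ∈ range N, p k * Real.cos (((k : ℝ) - m) * θ) := by
      intro θ
      rw [hC, hS]
      dsimp only
      rw [sum_mul, sum_mul, ← sum_sub_distrib]
      refine sum_congr rfl fun k _ => ?_
      have h3 : ((k : ℝ) - m) * θ = ((k : ℝ) - (m + 1 : ℕ)) * θ + θ := by
        push_cast
        ring
      rw [h3, Real.cos_add]
      ring
    simp only [h2]
    rw [integral_sum_cos]
    split_ifs with h3
    · rfl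
    · rw [hpk, a_eq_zero n m (by omega)]
      simp
  -- lower bound of the integral of C
  have hint : ∀ (f : ℝ → ℝ), Continuous f → ∀ a b : ℝ, IntervalIntegrable f volume a b :=
    fun f hf a b => hf.intervalIntegrable a b
  have hEe : Continuous fun θ => Real.exp (-(E n τ θ)) := by fun_prop
  have hI3 : P * (θ0 - V n τ * θ0 ^ 3 / 6 - ∫ θ in θ0..Real.pi, Real.exp (-(E n τ θ)))
      ≤ ∫ θ in (0:ℝ)..Real.pi, C θ := by
    rw [← intervalIntegral.integral_add_adjacent_intervals (hint C hCc 0 θ0) (hint C hCc θ0 _)]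
    have h2 : P * (θ0 - V n τ * θ0 ^ 3 / 6) ≤ ∫ θ in (0:ℝ)..θ0, C θ := by
      have h3 : ∫ θ in (0:ℝ)..θ0, P * (1 - V n τ * θ ^ 2 / 2)
          = P * (θ0 - V n τ * θ0 ^ 3 / 6) := by
        have h4 : ∀ θ : ℝ, P * (1 - V n τ * θ ^ 2 / 2) = P - (P * V n τ / 2) * θ ^ 2 := by
          intro θ; ring
        simp only [h4]
        rw [intervalIntegral.integral_sub (hint _ (by fun_prop) _ _) (hint _ (by fun_prop) _ _),
          intervalIntegral.integral_const_mul, integral_pow]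
        simp
        ring
      rw [← h3]
      exact intervalIntegral.integral_mono_on h0 (hint _ (by fun_prop) _ _) (hint C hCc _ _)
        fun θ _ => hClow θ
    have h3 : -(P * ∫ θ in θ0..Real.pi, Real.exp (-(E n τ θ))) ≤ ∫ θ in θ0..Real.pi, C θ := by
      rw [← intervalIntegral.integral_const_mul, ← intervalIntegral.integral_neg]
      exact intervalIntegral.integral_mono_on h1 (hint _ (by fun_prop) _ _) (hint C hCc _ _)
        fun θ _ => hCabs θ
    linarith
  have hI4 : -(P * ∫ θ in (0:ℝ)..Real.pi, θ * Real.exp (-(E n τ θ)))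
      ≤ ∫ θ in (0:ℝ)..Real.pi, (C θ * (1 - Real.cos θ) + S θ * Real.sin θ) := by
    rw [← intervalIntegral.integral_const_mul, ← intervalIntegral.integral_neg]
    refine intervalIntegral.integral_mono_on hpi.le (hint _ (by fun_prop) _ _)
      (hint _ (by fun_prop) _ _) fun θ hθ => ?_
    have := hmix θ hθ.1
    calc -(P * (θ * Real.exp (-(E n τ θ)))) = -(θ * (P * Real.exp (-(E n τ θ)))) := by ring
      _ ≤ _ := this
  -- relation of the integrals
  have hI5 : ∫ θ in (0:ℝ)..Real.pi, (C θ * (1 - Real.cos θ) + S θ * Real.sin θ)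
      = Real.pi * p (m + 1) - Real.pi * p m := by
    rw [← hI1, ← hI2, ← intervalIntegral.integral_sub (hint C hCc _ _) (hint _ (by fun_prop) _ _)]
    refine intervalIntegral.integral_congr fun θ _ => ?_
    ring
  -- conclusion
  have hJ0 : 0 ≤ ∫ θ in (0:ℝ)..Real.pi, θ * Real.exp (-(E n τ θ)) := by
    refine intervalIntegral.integral_nonneg hpi.le fun θ hθ => ?_
    exact mul_nonneg hθ.1 (Real.exp_pos _).le
  obtain ⟨J, hJ⟩ : ∃ J, J = ∫ θ in (0:ℝ)..Real.pi, θ * Real.exp (-(E n τ θ)) := ⟨_, rfl⟩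
  obtain ⟨Q, hQ⟩ : ∃ Q, Q = θ0 - V n τ * θ0 ^ 3 / 6
      - ∫ θ in θ0..Real.pi, Real.exp (-(E n τ θ)) := ⟨_, rfl⟩
  rw [← hJ, ← hQ] at h
  rw [← hJ] at hJ0 hI4
  rw [← hQ, hI1] at hI3
  rw [hI5] at hI4
  have hQ0 : 0 < Q := by
    by_contra hc
    have := mul_nonpos_of_nonneg_of_nonpos hτ.le (not_lt.1 hc)
    linarith
  have hr1 : r * τ ≤ 1 - r := by
    have h2 : τ + 1 ≤ Real.exp τ := Real.add_one_le_exp τ
    have h3 : r * Real.exp τ = 1 := by
      rw [hr, ← Real.exp_add]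
      simp
    have h4 : r * (τ + 1) ≤ r * Real.exp τ := mul_le_mul_of_nonneg_left h2 hr0.le
    linarith
  have hfin : r * (Real.pi * p m) < Real.pi * p (m + 1) := by
    have h2 : r * τ * (P * Q) ≤ (1 - r) * (P * Q) :=
      mul_le_mul_of_nonneg_right hr1 (by positivity)
    have h3 : (1 - r) * (P * Q) ≤ (1 - r) * (Real.pi * p (m + 1)) := by
      refine mul_le_mul_of_nonneg_left hI3 ?_
      have : 0 < r * τ := by positivity
      linarith
    have h4 : r * (-(P * J)) ≤ r * (Real.pi * p (m + 1) - Real.pi * p m) :=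
      mul_le_mul_of_nonneg_left hI4 hr0.le
    have h5 : r * P * J < r * P * (τ * Q) := mul_lt_mul_of_pos_left h (by positivity)
    nlinarith
  have h6 : r * p m < p (m + 1) := by
    have h7 : Real.pi * (r * p m) < Real.pi * p (m + 1) := by
      calc Real.pi * (r * p m) = r * (Real.pi * p m) := by ring
        _ < _ := hfin
    exact lt_of_mul_lt_mul_left h7 hpi.le
  rw [hpk, hpk] at h6
  have h8 : (a n m : ℝ) * r ^ (m + 1) < (a n (m + 1) : ℝ) * r ^ (m + 1) := by
    calc (a n m : ℝ) * r ^ (m + 1) = r * ((a n m : ℝ) * r ^ m) := by ring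
      _ < _ := h6
  exact_mod_cast lt_of_mul_lt_mul_right h8 (by positivity)

end C048
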