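import Pool.Agent.helper18.KU.Spec

set_option autoImplicit false

namespace Pool.Agent.KU

open Finset

noncomputable section

theorem F3_three {V : Type} [DecidableEq V] (g : V → ℕ) (Q : Finset V) (a b c : V) (ha : a ∈ Q) (hb : b ∈ Q) (hc : c ∈ Q)
    (hab : a ≠ b) (hac : a ≠ c) (hbc : b ≠ c) : g a + g b + g c ≤ ∑ u ∈ Q, g u := by
  have h : ∑ u ∈ ({a, b, c} : Finset V), g u ≤ ∑ u ∈ Q, g u := by
    apply Finset.sum_le_sum_of_subset
    intro u hu
    simp only [mem_insert, mem_singleton] at hu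
    rcases hu with rfl | rfl | rfl <;> assumption
  rw [sum_insert (by simp [hab, hac]), sum_insert (by simp [hbc]), sum_singleton] at h
  omega

theorem F3_symm {V : Type} [DecidableEq V] {S : Finset V} {w : V → V → ℕ} (hw : Sy w) {a b : V}
    (h : Blk S w a b) : Blk S w b a := by
  rcases h with h | ⟨Q, hQ, h1, h2⟩
  · exact Or.inl ((hw.symm b a).trans h)
  · exact Or.inr ⟨Q, hQ, h2, h1⟩

theorem F3_aux (hEIN : EIN_stmt) (hF1 : F1_stmt) (hCRI : CRI_stmt) {V : Type} [DecidableEq V] (S : Finset V)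
    (X : V → ℕ) (w : V → V → ℕ)
    (hC : Cone S X w) (hI : Irr S X w) (h5 : 5 ≤ S.card) (hD : CrDj S w) (v : V) (hv : v ∈ S)
    (hvQ : ∀ Q, Crit S w Q → v ∉ Q) (a b c : V) (haS : a ∈ S) (hbS : b ∈ S) (hcS : c ∈ S)
    (hab : a ≠ b) (hac : a ≠ c) (hbc : b ≠ c)
    (ka : 1 ≤ w v a) (kb : 1 ≤ w v b) (kc : 1 ≤ w v c) (bac : Blk S w a c) (bbc : Blk S w b c)
    (Q : Finset V) (hQ : Crit S w Q) (haQ : a ∈ Q) (hbQ : b ∈ Q) : False := by
  have hvn : v ∉ Q := hvQ Q hQ
  have h1 := hF1 V S X w hC hI h5 Q hQ v hv hvn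
  have hXv := hC.root v hv
  have hsum : dg w Q v = ∑ u ∈ Q, w v u := rfl
  have hcn : c ∉ Q := by
    intro hc
    have := F3_three (w v) Q a b c haQ hbQ hc hab hac hbc
    omega
  have hwac : w a c = 2 := by
    rcases bac with h | ⟨Q', hQ', h1, h2⟩
    · exact h
    · exfalso
      have hne : Q ≠ Q' := fun h => hcn (h ▸ h2)
      exact (Finset.disjoint_left.1 (hD Q Q' hQ hQ' hne)) haQ h1
  have hwbc : w b c = 2 := by
    rcases bbc with h | ⟨Q', hQ', h1, h2⟩
    · exact h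
    · exfalso
      have hne : Q ≠ Q' := fun h => hcn (h ▸ h2)
      exact (Finset.disjoint_left.1 (hD Q Q' hQ hQ' hne)) hbQ h1
  obtain ⟨-, -, -, -, hcr⟩ := hCRI V S X w hC hI (by omega) Q hQ
  have hwab := hcr a haQ b hbQ hab
  obtain ⟨-, -, -, -, -, e3, -, -, -⟩ := hEIN V w hC.sy
  have hE3 := e3 a b c hab hac hbc
  have hcard : ({a, b, c} : Finset V).card = 3 := by
    rw [card_insert_of_notMem (by simp [hab, hac]), card_insert_of_notMem (by simp [hbc]), card_singleton]
  have hsub : ({a, b, c} : Finset V) ⊆ S := by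
    intro u hu
    simp only [mem_insert, mem_singleton] at hu
    rcases hu with rfl | rfl | rfl <;> assumption
  have hv3 := hC.v {a, b, c} hsub (by omega)
  have hcrit : Crit S w {a, b, c} := ⟨hsub, hcard, by omega⟩
  have hne : Q ≠ {a, b, c} := by
    intro h
    apply hcn
    rw [h]
    simp
  exact (Finset.disjoint_left.1 (hD Q {a, b, c} hQ hcrit hne)) haQ (by simp)

theorem F3 (hEIN : EIN_stmt) (hF1 : F1_stmt) (hCRI : CRI_stmt) : F3_stmt := by
  intro V _ S X w hC hI h5 hD v hv hvQ a haS b hbS c hcS _ _ _ hab hac hbc ka kb kc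
  rintro ⟨bab, bac, bbc⟩
  rcases bab with hab2 | ⟨Q, hQ, h1, h2⟩
  · rcases bac with hac2 | ⟨Q, hQ, h1, h2⟩
    · rcases bbc with hbc2 | ⟨Q, hQ, h1, h2⟩
      · obtain ⟨-, -, -, -, -, e3, -, -, -⟩ := hEIN V w hC.sy
        have hE3 := e3 a b c hab hac hbc
        have hcard : ({a, b, c} : Finset V).card = 3 := by
          rw [card_insert_of_notMem (by simp [hab, hac]), card_insert_of_notMem (by simp [hbc]), card_singleton]
        have hsub : ({a, b, c} : Finset V) ⊆ S := by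
          intro u hu
          simp only [mem_insert, mem_singleton] at hu
          rcases hu with rfl | rfl | rfl <;> assumption
        have hv3 := hC.v {a, b, c} hsub (by omega)
        omega
      · exact F3_aux hEIN hF1 hCRI S X w hC hI h5 hD v hv hvQ b c a hbS hcS haS hbc hab.symm hac.symm kb kc ka
          (F3_symm hC.sy (Or.inl hab2)) (F3_symm hC.sy (Or.inl hac2)) Q hQ h1 h2
    · exact F3_aux hEIN hF1 hCRI S X w hC hI h5 hD v hv hvQ a c b haS hcS hbS hac hab hbc.symm ka kc kb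
        (Or.inl hab2) (F3_symm hC.sy bbc) Q hQ h1 h2
  · exact F3_aux hEIN hF1 hCRI S X w hC hI h5 hD v hv hvQ a b c haS hbS hcS hab hac hbc ka kb kc
      bac bbc Q hQ h1 h2

end

end Pool.Agent.KU
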