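import Pool.Agent.helper70.KU.FinDefs

/-!
# FIN1: soundness of the kernel test
-/

namespace C048

open Finset

namespace FIN1

variable (w : ℕ)

/-- number with digits `d k` in base `2 ^ w` -/
def ds (d : ℕ → ℕ) (n : ℕ) : ℕ := ∑ k ∈ range n, d k * 2 ^ (w * k)

lemma ds_lt {d : ℕ → ℕ} (hd : ∀ k, d k < 2 ^ w) (n : ℕ) : ds w d n < 2 ^ (w * n) := by
  induction n with
  | zero => simp [ds]
  | succ n ih =>
    have h1 : d n * 2 ^ (w * n) + 2 ^ (w * n) ≤ 2 ^ w * 2 ^ (w * n) := by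
      have := Nat.mul_le_mul_right (2 ^ (w * n)) (hd n)
      calc d n * 2 ^ (w * n) + 2 ^ (w * n) = (d n + 1) * 2 ^ (w * n) := by ring
        _ ≤ _ := this
    have h2 : 2 ^ (w * (n + 1)) = 2 ^ w * 2 ^ (w * n) := by
      rw [← pow_add]; ring_nf
    rw [ds, sum_range_succ, h2]
    rw [ds] at ih
    omega

lemma ds_add (d : ℕ → ℕ) (m n : ℕ) :
    ds w d (m + n) = ds w d m + 2 ^ (w * m) * ds w (fun k => d (m + k)) n := by
  rw [ds, sum_range_add, ds, ds, mul_sum]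
  congr 1
  refine sum_congr rfl fun k _ => ?_
  rw [mul_add, pow_add]
  ring

lemma ds_mod {d : ℕ → ℕ} (hd : ∀ k, d k < 2 ^ w) {m n : ℕ} (h : m ≤ n) :
    ds w d n % 2 ^ (w * m) = ds w d m := by
  obtain ⟨k, rfl⟩ := Nat.exists_eq_add_of_le h
  rw [ds_add, Nat.add_mul_mod_self_left, Nat.mod_eq_of_lt (ds_lt w hd m)]

lemma ds_digit {d : ℕ → ℕ} (hd : ∀ k, d k < 2 ^ w) {j n : ℕ} (h : j < n) :
    ds w d n / 2 ^ (w * j) % 2 ^ w = d j := by
  obtain ⟨k, hk⟩ := Nat.exists_eq_add_of_lt h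
  have h1 : n = j + (1 + k) := by omega
  rw [h1, ds_add, Nat.add_mul_div_left _ _ (by positivity), Nat.div_eq_of_lt (ds_lt w hd j),
    zero_add, ds_add]
  have h2 : ds w (fun k => d (j + k)) 1 = d j := by simp [ds]
  rw [h2, mul_one, Nat.add_mul_mod_self_left, Nat.mod_eq_of_lt (hd j)]

lemma testBit_ds {d : ℕ → ℕ} (hd : ∀ k, d k < 2 ^ w) {i j n : ℕ} (hi : i < w) (h : j < n) :
    (ds w d n).testBit (w * j + i) = (d j).testBit i := by
  rw [← ds_digit w hd h, Nat.testBit_mod_two_pow, Nat.testBit_div_two_pow]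
  simp [hi, add_comm]

lemma Hm_eq (hw : 2 ≤ w) (L : ℕ) : Hm w L = ds w (fun _ => 2 ^ (w - 1)) (L + 1) := by
  have h2 : 2 ≤ 2 ^ w := by
    calc 2 = 2 ^ 1 := rfl
      _ ≤ 2 ^ w := Nat.pow_le_pow_right (by norm_num) (by omega)
  have h1 := Nat.geomSum_eq h2 (L + 1)
  rw [Hm, ds, Nat.one_shiftLeft, Nat.one_shiftLeft, Nat.one_shiftLeft, pow_mul, ← h1, sum_mul]
  refine sum_congr rfl fun k _ => ?_
  rw [pow_mul, mul_comm]

end FIN1

open FIN1

/-- FIN1: soundness of the test. `c` = coefficients, `N = ∑ c k W^k`, `W = 2^w`. -/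
theorem test_sound (w Lm L K : ℕ) (hw : 2 ≤ w) (hL : L ≤ Lm) (c : ℕ → ℕ)
    (hc : ∀ k, c k < 2 ^ (w - 1))
    (h : okN w (Hm w Lm) (w * (L + 1)) (∑ k ∈ range K, c k * 2 ^ (w * k)) = true)
    (hK : L < K) (k : ℕ) (hk : k + 1 ≤ L) : c k ≤ c (k + 1) := by
  have hW : 2 ^ (w - 1) + 2 ^ (w - 1) = 2 ^ w := by
    rw [← two_mul, ← pow_succ']
    congr 1
    omega
  have hW0 : 0 < 2 ^ (w - 1) := by positivity
  have hc' : ∀ k, c k < 2 ^ w := fun k => by
    have := hc k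
    omega
  have hh : ∀ _ : ℕ, 2 ^ (w - 1) < 2 ^ w := fun _ => by omega
  obtain ⟨p, hp⟩ : ∃ p : ℕ → ℕ, p = fun k => if k = 0 then 0 else c (k - 1) := ⟨_, rfl⟩
  have hp' : ∀ k, p k < 2 ^ (w - 1) := fun k => by
    rw [hp]
    dsimp only
    split_ifs
    · exact hW0
    · exact hc _
  have hp2 : ∀ k, p k < 2 ^ w := fun k => by
    have := hp' k
    omega
  -- the three numbers
  have h1 : (∑ k ∈ range K, c k * 2 ^ (w * k)) % 2 ^ (w * (L + 1)) = ds w c (L + 1) :=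
    ds_mod w hc' (by omega)
  have h2 : Hm w Lm % 2 ^ (w * (L + 1)) = ds w (fun _ => 2 ^ (w - 1)) (L + 1) := by
    rw [Hm_eq w hw]
    exact ds_mod w hh (by omega)
  have h3 : (ds w c (L + 1) <<< w) % 2 ^ (w * (L + 1)) = ds w p (L + 1) := by
    have e1 : ds w c (L + 1) <<< w = ds w p (1 + (L + 1)) := by
      have e2 : ds w p 1 = 0 := by simp [ds, hp]
      rw [ds_add w p, Nat.shiftLeft_eq, mul_one, mul_comm, e2, zero_add]
      congr 2
      funext k
      rw [hp]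
      dsimp only
      rw [if_neg (by omega)]
      congr 1
      omega
    rw [e1]
    exact ds_mod w hp2 (by omega)
  obtain ⟨d, hd⟩ : ∃ d : ℕ → ℕ, d = fun k => c k + 2 ^ (w - 1) - p k := ⟨_, rfl⟩
  have hdk : ∀ k, d k + p k = c k + 2 ^ (w - 1) := fun k => by
    have := hp' k
    rw [hd]
    dsimp only
    omega
  have hdw : ∀ k, d k < 2 ^ w := fun k => by
    have := hdk k
    have := hc k
    omega
  have h4 : ds w c (L + 1) + ds w (fun _ => 2 ^ (w - 1)) (L + 1) - ds w p (L + 1)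
      = ds w d (L + 1) := by
    have e1 : ds w c (L + 1) + ds w (fun _ => 2 ^ (w - 1)) (L + 1)
        = ds w d (L + 1) + ds w p (L + 1) := by
      rw [ds, ds, ds, ds, ← sum_add_distrib, ← sum_add_distrib]
      refine sum_congr rfl fun k _ => ?_
      rw [← add_mul, ← add_mul, hdk]
    omega
  rw [okN] at h
  rw [Nat.one_shiftLeft, h1, h2] at h
  beta_reduce at h
  rw [h3, h4] at h
  have h5 := Nat.eq_of_beq_eq_true h
  have h6 := congrArg (fun x => Nat.testBit x (w * (k + 1) + (w - 1))) h5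
  rw [Nat.testBit_land, testBit_ds w hdw (by omega) (by omega),
    testBit_ds w hh (by omega) (by omega), Nat.testBit_two_pow_self, Bool.and_true] at h6
  have h7 : 2 ^ (w - 1) ≤ d (k + 1) := by
    by_contra hlt
    rw [Nat.testBit_lt_two_pow (by omega)] at h6
    exact absurd h6 (by simp)
  have h8 := hdk (k + 1)
  have h9 : p (k + 1) = c k := by
    rw [hp]
    simp
  omega

end C048
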