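import Pool.Agent.helper70.KU.Alg
import Pool.Agent.helper70.KU.DB
import Pool.Agent.helper53.KU.ABS

/-!
# TR: transfer between radii; the roots of `P_n` are on the unit circle
-/

namespace C048

open Finset Filter Topology

namespace TRaux

section roots

open Polynomial

/-- `P_n` as a complex polynomial -/
noncomputable def PC (n : ℕ) : ℂ[X] := (PN n).map (Nat.castRingHom ℂ)

lemma PC_coeff (n k : ℕ) : (PC n).coeff k = (a n k : ℂ) := by
  rw [PC, coeff_map]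
  rfl

lemma PC_top (n : ℕ) : (PC n).coeff (10 * n ^ 2) = 1 := by
  rw [PC_coeff]
  have h := a_symm n 0 (Nat.zero_le _)
  rw [Nat.sub_zero, a_zero] at h
  rw [h, Nat.cast_one]

lemma PC_natDegree (n : ℕ) : (PC n).natDegree = 10 * n ^ 2 := by
  refine le_antisymm ?_ ?_
  · rw [natDegree_le_iff_coeff_eq_zero]
    intro N hN
    rw [PC_coeff, a_eq_zero n N hN, Nat.cast_zero]
  · refine le_natDegree_of_ne_zero ?_
    rw [PC_top]
    exact one_ne_zero

lemma PC_monic (n : ℕ) : (PC n).Monic := by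
  rw [Monic, leadingCoeff, PC_natDegree, PC_top]

lemma PC_eval (n : ℕ) (z : ℂ) : (PC n).eval z = Pz n z := by
  rw [eval_eq_sum_range' (n := 10 * n ^ 2 + 1) (by rw [PC_natDegree]; omega), Pz]
  refine sum_congr rfl fun k _ => ?_
  rw [PC_coeff]

lemma roots_norm (n : ℕ) {ρ : ℂ} (h : ρ ∈ (PC n).roots) : ‖ρ‖ = 1 := by
  have h1 : Pz n ρ = 0 := by
    rw [← PC_eval]
    exact (mem_roots (PC_monic n).ne_zero).1 h
  have h2 := Pz_identity n ρ
  rw [h1, zero_mul] at h2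
  obtain ⟨i, hi, h3⟩ := prod_eq_zero_iff.1 h2.symm
  rw [mem_Ioc] at hi
  have h4 : ρ ^ i = 1 := (sub_eq_zero.1 h3).symm
  exact Complex.norm_eq_one_of_pow_eq_one h4 (by omega)

lemma factor_le {r1 r : ℝ} (h1 : 0 < r1) (h : r1 ≤ r) (hr : r ≤ 1) {u ρ : ℂ} (hu : ‖u‖ = 1)
    (hρ : ‖ρ‖ = 1) : ‖(r : ℂ) * u - ρ‖ * √r1 ≤ ‖(r1 : ℂ) * u - ρ‖ * √r := by
  have hr0 : 0 < r := h1.trans_le h
  have key : ∀ s : ℝ, ‖(s : ℂ) * u - ρ‖ ^ 2 = s ^ 2 + 1 - 2 * s * (u * (starRingEnd ℂ) ρ).re := by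
    intro s
    rw [← Complex.normSq_eq_norm_sq, Complex.normSq_sub, Complex.normSq_mul,
      Complex.normSq_ofReal, Complex.normSq_eq_norm_sq u, Complex.normSq_eq_norm_sq ρ, hu, hρ,
      mul_assoc (s : ℂ), Complex.re_ofReal_mul]
    ring
  refine le_of_sq_le_sq ?_ (by positivity)
  rw [mul_pow, mul_pow, Real.sq_sqrt h1.le, Real.sq_sqrt hr0.le, key, key]
  nlinarith [mul_nonneg (sub_nonneg.2 h) (sub_nonneg.2 (mul_le_one₀ hr h1.le (h.trans hr)))]

lemma trP (n : ℕ) {r1 r : ℝ} (h1 : 0 < r1) (h : r1 ≤ r) (hr : r ≤ 1) {u : ℂ} (hu : ‖u‖ = 1) :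
    ‖Pz n ((r : ℂ) * u)‖ * r1 ^ (5 * n ^ 2) ≤ ‖Pz n ((r1 : ℂ) * u)‖ * r ^ (5 * n ^ 2) := by
  have hr0 : 0 < r := h1.trans_le h
  have key : ∀ s t : ℝ, 0 ≤ t → ‖Pz n ((s : ℂ) * u)‖ * t ^ (5 * n ^ 2)
      = ((PC n).roots.map (fun ρ => ‖(s : ℂ) * u - ρ‖ * √t)).prod := by
    intro s t ht
    rw [Multiset.prod_map_mul, Multiset.map_const', Multiset.prod_replicate]
    have h2 : (PC n).roots.card = 10 * n ^ 2 := by
      rw [← (IsAlgClosed.splits (PC n)).natDegree_eq_card_roots, PC_natDegree]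
    have h3 : √t ^ (10 * n ^ 2) = t ^ (5 * n ^ 2) := by
      have : 10 * n ^ 2 = 2 * (5 * n ^ 2) := by ring
      rw [this, pow_mul, Real.sq_sqrt ht]
    rw [h2, h3]
    congr 1
    rw [← PC_eval, (IsAlgClosed.splits (PC n)).eval_eq_prod_roots_of_monic (PC_monic n)]
    have h5 := map_multiset_prod (normHom : ℂ →*₀ ℝ)
      ((PC n).roots.map (fun ρ => (s : ℂ) * u - ρ))
    rw [Multiset.map_map] at h5
    exact h5
  rw [key r r1 h1.le, key r1 r hr0.le]
  refine Multiset.prod_map_le_prod_map₀ _ _ (fun ρ _ => by positivity) fun ρ hρ => ?_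
  exact factor_le h1 h hr hu (roots_norm n hρ)

end roots

/-! ### linearity of `D` -/

lemma D_sub' (n : ℕ) (F G : ℕ → ℝ) : D n (fun i => F i - G i) = D n F - D n G := by
  simp only [D, sum_sub_distrib]
  ring

lemma D_mul' (n : ℕ) (c : ℝ) (F : ℕ → ℝ) : D n (fun i => c * F i) = c * D n F := by
  simp only [D, ← mul_sum]
  ring

lemma sum_Ioc_id (a : ℕ) : ∀ k : ℕ, ∑ i ∈ Ioc a (a + k), (i : ℝ)
    = ((a + k : ℝ) * (a + k + 1) - a * (a + 1)) / 2 := by
  intro k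
  induction k with
  | zero => simp
  | succ k ih =>
    rw [← add_assoc, sum_Ioc_succ_top (by omega), ih]
    push_cast
    ring

lemma D_id (n : ℕ) : D n (fun i => (i : ℝ)) = -10 * (n : ℝ) ^ 2 := by
  have h1 : ∑ i ∈ Icc 1 n, (i : ℝ) = ((n : ℝ) * (n + 1)) / 2 := by
    have := sum_Ioc_id 0 n
    rw [zero_add] at this
    have e : Ioc 0 n = Icc 1 n := by ext i; simp [Nat.succ_le_iff]
    rw [e] at this
    rw [this]
    push_cast
    ring
  have h2 := sum_Ioc_id n n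
  have h3 := sum_Ioc_id (3 * n) (3 * n)
  have e2 : n + n = 2 * n := by ring
  have e3 : 3 * n + 3 * n = 6 * n := by ring
  rw [e2] at h2
  rw [e3] at h3
  rw [D, h1, h2, h3]
  push_cast
  ring

/-! ### the function `H` -/

/-- `P_n(e^{-t}) e^{5 n² t}` -/
noncomputable def H (n : ℕ) (t : ℝ) : ℝ := Pr n (Real.exp (-t)) * Real.exp (5 * (n : ℝ) ^ 2 * t)

lemma Pr_pos (n : ℕ) {r : ℝ} (hr : 0 ≤ r) : 0 < Pr n r := by
  rw [Pr]
  refine sum_pos' (fun k _ => by positivity) ⟨0, by rw [mem_range]; omega, ?_⟩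
  rw [a_zero]
  norm_num

lemma H_pos (n : ℕ) (t : ℝ) : 0 < H n t := mul_pos (Pr_pos n (Real.exp_pos _).le) (Real.exp_pos _)

lemma Pr_identity (n : ℕ) (r : ℝ) :
    Pr n r * ((∏ i ∈ Icc 1 n, (1 - r ^ i)) * (∏ i ∈ Ioc n (2 * n), (1 - r ^ i)) ^ 2)
      = ∏ i ∈ Ioc (3 * n) (6 * n), (1 - r ^ i) := by
  have h := Pz_identity n (r : ℂ)
  have h2 : Pz n (r : ℂ) = (Pr n r : ℂ) := by
    rw [Pz, Pr]
    push_cast
    rfl
  rw [h2] at h
  exact_mod_cast h

lemma log_H (n : ℕ) {t : ℝ} (ht : 0 < t) :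
    Real.log (H n t) = - D n (fun i => Real.log (Real.sinh (i * t / 2))) := by
  obtain ⟨r, hr⟩ : ∃ r, r = Real.exp (-t) := ⟨_, rfl⟩
  have hr0 : 0 < r := hr ▸ Real.exp_pos _
  have hr1 : r < 1 := by rw [hr, Real.exp_lt_one_iff]; linarith
  have hpos : ∀ i : ℕ, 1 ≤ i → 0 < 1 - r ^ i := by
    intro i hi
    have := pow_lt_one₀ hr0.le hr1 (by omega : i ≠ 0)
    linarith
  have h1 := congrArg Real.log (Pr_identity n r)
  have hp1 : 0 < ∏ i ∈ Icc 1 n, (1 - r ^ i) :=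
    prod_pos fun i hi => hpos i (mem_Icc.1 hi).1
  have hp2 : 0 < ∏ i ∈ Ioc n (2 * n), (1 - r ^ i) :=
    prod_pos fun i hi => hpos i (by have := (mem_Ioc.1 hi).1; omega)
  rw [Real.log_mul (Pr_pos n hr0.le).ne' (by positivity), Real.log_mul hp1.ne' (by positivity),
    Real.log_pow, Real.log_prod (fun i hi => (hpos i (mem_Icc.1 hi).1).ne'),
    Real.log_prod (fun i hi => (hpos i (by have := (mem_Ioc.1 hi).1; omega)).ne'),
    Real.log_prod (fun i hi => (hpos i (by have := (mem_Ioc.1 hi).1; omega)).ne')] at h1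
  have h2 : Real.log (Pr n r) = - D n (fun i => Real.log (1 - r ^ i)) := by
    rw [D]
    push_cast at h1
    linarith
  have h3 : D n (fun i => Real.log (1 - r ^ i))
      = D n (fun i => Real.log (Real.sinh (i * t / 2)) - (t / 2 * (i : ℝ) - Real.log 2)) := by
    have key : ∀ i : ℕ, 1 ≤ i → Real.log (1 - r ^ i)
        = Real.log (Real.sinh (i * t / 2)) - (t / 2 * (i : ℝ) - Real.log 2) := by
      intro i hi
      have hi0 : (0 : ℝ) < i := by exact_mod_cast hi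
      have hs : 0 < Real.sinh (i * t / 2) := Real.sinh_pos_iff.2 (by positivity)
      have e1 : 1 - r ^ i = Real.sinh (i * t / 2) * (2 * Real.exp (-(t / 2 * i))) := by
        rw [Real.sinh_eq, hr, ← Real.exp_nat_mul]
        have e2 : (Real.exp (i * t / 2) - Real.exp (-(i * t / 2))) / 2
            * (2 * Real.exp (-(t / 2 * i)))
            = Real.exp (i * t / 2) * Real.exp (-(t / 2 * i))
              - Real.exp (-(i * t / 2)) * Real.exp (-(t / 2 * i)) := by ring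
        rw [e2, ← Real.exp_add, ← Real.exp_add]
        have e3 : (i : ℝ) * t / 2 + -(t / 2 * i) = 0 := by ring
        have e4 : -((i : ℝ) * t / 2) + -(t / 2 * i) = i * -t := by ring
        rw [e3, e4, Real.exp_zero]
      rw [e1, Real.log_mul hs.ne' (by positivity), Real.log_mul (by norm_num) (Real.exp_pos _).ne',
        Real.log_exp]
      ring
    rw [D, D]
    congr 1
    · congr 1
      · exact sum_congr rfl fun i hi => key i (mem_Icc.1 hi).1
      · congr 1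
        exact sum_congr rfl fun i hi => key i (by have := (mem_Ioc.1 hi).1; omega)
    · exact sum_congr rfl fun i hi => key i (by have := (mem_Ioc.1 hi).1; omega)
  have h4 : D n (fun i => Real.log (Real.sinh (i * t / 2)) - (t / 2 * (i : ℝ) - Real.log 2))
      = D n (fun i => Real.log (Real.sinh (i * t / 2))) + 5 * (n : ℝ) ^ 2 * t := by
    rw [D_sub' n (fun i => Real.log (Real.sinh (i * t / 2))) (fun i => t / 2 * (i : ℝ) - Real.log 2),
      D_sub' n (fun i => t / 2 * (i : ℝ)) (fun _ => Real.log 2), D_const, D_mul', D_id]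
    ring
  rw [H, Real.log_mul (Pr_pos n (Real.exp_pos _).le).ne' (Real.exp_pos _).ne', Real.log_exp, ← hr,
    h2, h3, h4]
  ring

/-! ### calculus -/

lemma sinh_le {z : ℝ} (hz : 0 ≤ z) : Real.sinh z ≤ z * Real.cosh z := by
  have hm : MonotoneOn (fun z : ℝ => z * Real.cosh z - Real.sinh z) (Set.Ici 0) := by
    refine monotoneOn_of_deriv_nonneg (convex_Ici 0) (by fun_prop) (by fun_prop) fun x hx => ?_
    rw [interior_Ici, Set.mem_Ioi] at hx
    have hd : HasDerivAt (fun z : ℝ => z * Real.cosh z - Real.sinh z)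
        (1 * Real.cosh x + x * Real.sinh x - Real.cosh x) x :=
      ((hasDerivAt_id x).mul (Real.hasDerivAt_cosh x)).sub (Real.hasDerivAt_sinh x)
    rw [hd.deriv]
    have := mul_nonneg hx.le (Real.sinh_nonneg_iff.2 hx.le)
    linarith
  have h := hm (Set.mem_Ici.2 le_rfl) (Set.mem_Ici.2 hz) hz
  simp only [zero_mul, Real.sinh_zero, sub_zero] at h
  linarith

lemma cosh_le {z : ℝ} (hz : 0 ≤ z) : z * Real.cosh z ≤ (1 + z ^ 2 / 3) * Real.sinh z := by
  have hm : MonotoneOn (fun z : ℝ => (1 + z ^ 2 / 3) * Real.sinh z - z * Real.cosh z)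
      (Set.Ici 0) := by
    refine monotoneOn_of_deriv_nonneg (convex_Ici 0) (by fun_prop) (by fun_prop) fun x hx => ?_
    rw [interior_Ici, Set.mem_Ioi] at hx
    have hd1 : HasDerivAt (fun z : ℝ => 1 + z ^ 2 / 3) (2 * x / 3) x := by
      have := ((hasDerivAt_pow 2 x).div_const 3).const_add 1
      simpa using this
    have hd : HasDerivAt (fun z : ℝ => (1 + z ^ 2 / 3) * Real.sinh z - z * Real.cosh z)
        ((2 * x / 3) * Real.sinh x + (1 + x ^ 2 / 3) * Real.cosh x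
          - (1 * Real.cosh x + x * Real.sinh x)) x :=
      (hd1.mul (Real.hasDerivAt_sinh x)).sub ((hasDerivAt_id x).mul (Real.hasDerivAt_cosh x))
    rw [hd.deriv]
    have h1 := sinh_le hx.le
    have h2 : 0 ≤ x / 3 * (x * Real.cosh x - Real.sinh x) :=
      mul_nonneg (by positivity) (by linarith)
    nlinarith
  have h := hm (Set.mem_Ici.2 le_rfl) (Set.mem_Ici.2 hz) hz
  simp only [zero_mul, Real.sinh_zero, mul_zero, sub_zero] at h
  linarith

lemma hasDerivAt_log_sinh {c x : ℝ} (hc : 0 < c) (hx : 0 < x) :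
    HasDerivAt (fun x => Real.log (Real.sinh (x * c / 2)))
      (Real.cosh (x * c / 2) * (c / 2) / Real.sinh (x * c / 2)) x := by
  have h1 : HasDerivAt (fun x => x * c / 2) (c / 2) x := by
    simpa using ((hasDerivAt_id x).mul_const c).div_const 2
  have hs : 0 < Real.sinh (x * c / 2) := Real.sinh_pos_iff.2 (by positivity)
  exact (h1.sinh).log hs.ne'

lemma Phi_anti {τ τ1 : ℝ} (hτ : 0 < τ) (h1 : 0 < τ1) {x y : ℝ} (hx : 0 < x) (hxy : x ≤ y) :
    Real.log (Real.sinh (y * τ1 / 2)) - Real.log (Real.sinh (y * τ / 2)) - τ1 ^ 2 / 24 * y ^ 2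
    ≤ Real.log (Real.sinh (x * τ1 / 2)) - Real.log (Real.sinh (x * τ / 2))
      - τ1 ^ 2 / 24 * x ^ 2 := by
  have hd : ∀ x : ℝ, 0 < x → HasDerivAt (fun x => Real.log (Real.sinh (x * τ1 / 2))
      - Real.log (Real.sinh (x * τ / 2)) - τ1 ^ 2 / 24 * x ^ 2)
      (Real.cosh (x * τ1 / 2) * (τ1 / 2) / Real.sinh (x * τ1 / 2)
        - Real.cosh (x * τ / 2) * (τ / 2) / Real.sinh (x * τ / 2) - τ1 ^ 2 / 24 * (2 * x)) x := by
    intro x hx
    have h3 : HasDerivAt (fun x : ℝ => τ1 ^ 2 / 24 * x ^ 2) (τ1 ^ 2 / 24 * (2 * x)) x := by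
      simpa using (hasDerivAt_pow 2 x).const_mul (τ1 ^ 2 / 24)
    exact ((hasDerivAt_log_sinh h1 hx).sub (hasDerivAt_log_sinh hτ hx)).sub h3
  have hm : AntitoneOn (fun x => Real.log (Real.sinh (x * τ1 / 2))
      - Real.log (Real.sinh (x * τ / 2)) - τ1 ^ 2 / 24 * x ^ 2) (Set.Ioi 0) := by
    refine antitoneOn_of_deriv_nonpos (convex_Ioi 0)
      (fun x hx => (hd x hx).continuousAt.continuousWithinAt)
      (fun x hx => ?_) fun x hx => ?_
    · rw [interior_Ioi] at hx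
      exact (hd x hx).differentiableAt.differentiableWithinAt
    · rw [interior_Ioi] at hx
      have hx0 : 0 < x := hx
      rw [(hd x hx).deriv]
      have hs1 : 0 < Real.sinh (x * τ1 / 2) := Real.sinh_pos_iff.2 (by positivity)
      have hs : 0 < Real.sinh (x * τ / 2) := Real.sinh_pos_iff.2 (by positivity)
      have e1 := cosh_le (z := x * τ1 / 2) (by positivity)
      have e2 := sinh_le (z := x * τ / 2) (by positivity)
      have f1 : x * (Real.cosh (x * τ1 / 2) * (τ1 / 2) / Real.sinh (x * τ1 / 2))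
          ≤ 1 + (x * τ1 / 2) ^ 2 / 3 := by
        rw [← mul_div_assoc, div_le_iff₀ hs1]
        calc x * (Real.cosh (x * τ1 / 2) * (τ1 / 2)) = x * τ1 / 2 * Real.cosh (x * τ1 / 2) := by ring
          _ ≤ _ := e1
      have f2 : 1 ≤ x * (Real.cosh (x * τ / 2) * (τ / 2) / Real.sinh (x * τ / 2)) := by
        rw [← mul_div_assoc, le_div_iff₀ hs, one_mul]
        calc Real.sinh (x * τ / 2) ≤ x * τ / 2 * Real.cosh (x * τ / 2) := e2
          _ = _ := by ring
      have f3 : x * (Real.cosh (x * τ1 / 2) * (τ1 / 2) / Real.sinh (x * τ1 / 2)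
        - Real.cosh (x * τ / 2) * (τ / 2) / Real.sinh (x * τ / 2) - τ1 ^ 2 / 24 * (2 * x))
        ≤ x * 0 := by
        rw [mul_zero]
        nlinarith
      exact le_of_mul_le_mul_left f3 hx0
  exact hm (Set.mem_Ioi.2 hx) (Set.mem_Ioi.2 (hx.trans_le hxy)) hxy

lemma H_le (n : ℕ) {τ τ1 : ℝ} (hτ : 0 < τ) (h1 : 0 < τ1) :
    H n τ1 ≤ H n τ * Real.exp (S2 n * τ1 ^ 2 / 24) := by
  rw [← Real.log_le_log_iff (H_pos n τ1) (mul_pos (H_pos n τ) (Real.exp_pos _)),
    Real.log_mul (H_pos n τ).ne' (Real.exp_pos _).ne', Real.log_exp, log_H n h1, log_H n hτ]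
  have h2 : 0 ≤ D n (fun i => Real.log (Real.sinh (i * τ1 / 2))
      - Real.log (Real.sinh (i * τ / 2)) - τ1 ^ 2 / 24 * (i : ℝ) ^ 2) := by
    refine D_nonneg fun i j hi hij _ => ?_
    exact Phi_anti hτ h1 (by exact_mod_cast hi) (by exact_mod_cast hij)
  rw [D_sub' n (fun i => Real.log (Real.sinh (i * τ1 / 2)) - Real.log (Real.sinh (i * τ / 2)))
      (fun i => τ1 ^ 2 / 24 * (i : ℝ) ^ 2),
    D_sub' n (fun i => Real.log (Real.sinh (i * τ1 / 2)))
      (fun i => Real.log (Real.sinh (i * τ / 2))), D_mul', D_sq] at h2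
  linarith

lemma exp_split (τ θ : ℝ) : Complex.exp (-(τ : ℂ) + θ * Complex.I)
    = ((Real.exp (-τ) : ℝ) : ℂ) * Complex.exp (θ * Complex.I) := by
  rw [Complex.exp_add]
  push_cast
  rfl

end TRaux

open TRaux

/-- TR: transfer, roots of `P_n` are on the unit circle -/
theorem tr (n : ℕ) (hn : 1 ≤ n) {τ τ1 : ℝ} (hτ : 0 < τ) (h : τ ≤ τ1) (θ : ℝ) :
    E n τ1 θ - S2 n * τ1 ^ 2 / 24 ≤ E n τ θ := by
  have h1 : 0 < τ1 := hτ.trans_le h
  have hp := trP n (Real.exp_pos (-τ1)) (Real.exp_le_exp.2 (by linarith : -τ1 ≤ -τ))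
    (Real.exp_le_one_iff.2 (by linarith)) (Complex.norm_exp_ofReal_mul_I θ)
  rw [← exp_split, ← exp_split, abs_formula n hn hτ, abs_formula n hn h1, ← Real.exp_nat_mul,
    ← Real.exp_nat_mul] at hp
  push_cast at hp
  have h2 := H_le n hτ h1
  have h3 : H n τ * Real.exp (-(E n τ θ)) ≤ H n τ1 * Real.exp (-(E n τ1 θ)) := by
    rw [H, H]
    have e : 0 < Real.exp (5 * (n : ℝ) ^ 2 * τ) * Real.exp (5 * (n : ℝ) ^ 2 * τ1) := by positivity
    have e1 : Real.exp (5 * (n : ℝ) ^ 2 * -τ1) * Real.exp (5 * (n : ℝ) ^ 2 * τ1) = 1 := by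
      rw [← Real.exp_add]
      simp
    have e2 : Real.exp (5 * (n : ℝ) ^ 2 * -τ) * Real.exp (5 * (n : ℝ) ^ 2 * τ) = 1 := by
      rw [← Real.exp_add]
      simp
    have h4 := mul_le_mul_of_nonneg_right hp e.le
    calc Pr n (Real.exp (-τ)) * Real.exp (5 * (n : ℝ) ^ 2 * τ) * Real.exp (-(E n τ θ))
        = Pr n (Real.exp (-τ)) * Real.exp (-(E n τ θ)) * Real.exp (5 * (n : ℝ) ^ 2 * τ)
          * (Real.exp (5 * (n : ℝ) ^ 2 * -τ1) * Real.exp (5 * (n : ℝ) ^ 2 * τ1)) := by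
          rw [e1]; ring
      _ = Pr n (Real.exp (-τ)) * Real.exp (-(E n τ θ)) * Real.exp (5 * (n : ℝ) ^ 2 * -τ1)
          * (Real.exp (5 * (n : ℝ) ^ 2 * τ) * Real.exp (5 * (n : ℝ) ^ 2 * τ1)) := by ring
      _ ≤ _ := h4
      _ = Pr n (Real.exp (-τ1)) * Real.exp (5 * (n : ℝ) ^ 2 * τ1) * Real.exp (-(E n τ1 θ))
          * (Real.exp (5 * (n : ℝ) ^ 2 * -τ) * Real.exp (5 * (n : ℝ) ^ 2 * τ)) := by ring
      _ = _ := by rw [e2]; ring
  have h5 : H n τ * Real.exp (-(E n τ θ))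
      ≤ H n τ * Real.exp (S2 n * τ1 ^ 2 / 24 + -(E n τ1 θ)) := by
    rw [Real.exp_add]
    calc _ ≤ _ := h3
      _ ≤ (H n τ * Real.exp (S2 n * τ1 ^ 2 / 24)) * Real.exp (-(E n τ1 θ)) :=
        mul_le_mul_of_nonneg_right h2 (Real.exp_pos _).le
      _ = _ := by ring
  have h6 := Real.exp_le_exp.1 (le_of_mul_le_mul_left h5 (H_pos n τ))
  linarith

/-- TR0: the same at `r = 1` -/
theorem tr0 (n : ℕ) (hn : 1 ≤ n) {τ1 : ℝ} (h : 0 < τ1) (θ : ℝ) :
    |Qf n θ| ≤ Pr n 1 * Real.exp (-(E n τ1 θ - S2 n * τ1 ^ 2 / 24)) := by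
  have hp := trP n (Real.exp_pos (-τ1)) (Real.exp_le_one_iff.2 (by linarith)) le_rfl
    (Complex.norm_exp_ofReal_mul_I θ)
  rw [← exp_split, abs_formula n hn h, one_pow, mul_one, ← Real.exp_nat_mul] at hp
  push_cast at hp
  rw [one_mul] at hp
  -- Qf is at most the modulus
  have hQ : |Qf n θ| ≤ ‖Pz n (Complex.exp (θ * Complex.I))‖ := by
    have h1 : Qf n θ = (Pz n (Complex.exp (θ * Complex.I))
        * Complex.exp (((-(5 * (n : ℝ) ^ 2 * θ) : ℝ) : ℂ) * Complex.I)).re := by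
      rw [Pz, sum_mul, Complex.re_sum, Qf]
      refine sum_congr rfl fun k _ => ?_
      rw [mul_assoc, ← Complex.exp_nat_mul, ← Complex.exp_add]
      have e1 : (k : ℂ) * (θ * Complex.I) + ((-(5 * (n : ℝ) ^ 2 * θ) : ℝ) : ℂ) * Complex.I
          = ((((k : ℝ) - 5 * (n : ℝ) ^ 2) * θ : ℝ) : ℂ) * Complex.I := by
        push_cast
        ring
      rw [e1]
      have e2 : ((a n k : ℕ) : ℂ) = (((a n k : ℕ) : ℝ) : ℂ) := by push_cast; rfl
      rw [e2, Complex.re_ofReal_mul, Complex.exp_ofReal_mul_I_re]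
    rw [h1]
    refine (Complex.abs_re_le_norm _).trans ?_
    rw [norm_mul, Complex.norm_exp_ofReal_mul_I, mul_one]
  -- H at 0
  have hH : H n τ1 ≤ Pr n 1 * Real.exp (S2 n * τ1 ^ 2 / 24) := by
    have hc : Continuous (fun t => H n t) := by
      unfold H Pr
      fun_prop
    have ht : Tendsto (fun t => H n t * Real.exp (S2 n * τ1 ^ 2 / 24)) (𝓝[>] 0)
        (𝓝 (H n 0 * Real.exp (S2 n * τ1 ^ 2 / 24))) := by
      have := (hc.mul continuous_const : Continuous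
        (fun t => H n t * Real.exp (S2 n * τ1 ^ 2 / 24))).tendsto 0
      exact this.mono_left nhdsWithin_le_nhds
    have h0 : H n 0 = Pr n 1 := by simp [H]
    rw [h0] at ht
    refine ge_of_tendsto ht ?_
    filter_upwards [self_mem_nhdsWithin] with t ht0
    exact H_le n ht0 h
  have e1 : Real.exp (5 * (n : ℝ) ^ 2 * -τ1) * Real.exp (5 * (n : ℝ) ^ 2 * τ1) = 1 := by
    rw [← Real.exp_add]
    simp
  calc |Qf n θ| ≤ ‖Pz n (Complex.exp (θ * Complex.I))‖ := hQ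
    _ = ‖Pz n (Complex.exp (θ * Complex.I))‖ * Real.exp (5 * (n : ℝ) ^ 2 * -τ1)
        * Real.exp (5 * (n : ℝ) ^ 2 * τ1) := by rw [mul_assoc, e1, mul_one]
    _ ≤ (Pr n (Real.exp (-τ1)) * Real.exp (-(E n τ1 θ))) * Real.exp (5 * (n : ℝ) ^ 2 * τ1) :=
        mul_le_mul_of_nonneg_right hp (Real.exp_pos _).le
    _ = H n τ1 * Real.exp (-(E n τ1 θ)) := by rw [H]; ring
    _ ≤ (Pr n 1 * Real.exp (S2 n * τ1 ^ 2 / 24)) * Real.exp (-(E n τ1 θ)) :=
        mul_le_mul_of_nonneg_right hH (Real.exp_pos _).le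
    _ = Pr n 1 * Real.exp (-(E n τ1 θ - S2 n * τ1 ^ 2 / 24)) := by
        rw [mul_assoc, ← Real.exp_add]
        congr 2
        ring

end C048
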